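import Pool.Agent.Helper59.NP.Bump
import Pool.Agent.Helper59.NP.KZ
import Pool.Agent.Helper59.NP.Eig
import Pool.Agent.Helper53.NP.Geom
import Pool.Agent.Helper47.NP.Neg
import Pool.Agent.Helper16.NP.Eigen

/-!
The Neumann–Poincaré operator of a curvilinear polygon with two right angles and infinitely many
eigenvalues. The definitions (`CurvPolygon`, its interior angles, its arc length measure, the space
`H^{1/2}` and the eigenvalues of the operator) are in `Pool.Agent.Helper59.NP.Defs`.
-/

set_option autoImplicit false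
open Set

namespace Pool.Agent.Results.MP_f4a5f6_an.InfManyEigenvalues

open Pool.Agent.Helper59.NP

/-- There is a curvilinear polygon, all of whose interior angles are equal to `π / 2`, such that
its Neumann–Poincaré operator on `H^{1/2}` has infinitely many eigenvalues. -/
theorem result : ∃ P : CurvPolygon,
    (∀ i, P.angle i = Real.pi / 2) ∧ {μ : ℂ | P.IsEigenvalue μ}.Infinite := by
  obtain ⟨P, hP⟩ := Pool.Agent.Helper53.NP.exists_lens isBump_eta contDiff_eta
  refine ⟨P, hP.angle, ?_⟩
  have hinf := isBump_eta.infinite_eigen (isBump_eta.exists_neg eta_lower)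
  obtain ⟨κ, hκ⟩ := isBump_eta.exists_shift
  have h2 := hinf.sdiff (finite_singleton κ)
  have hinj : Set.InjOn (fun μ : ℝ => (μ : ℂ))
      ({μ : ℝ | μ < 0 ∧ ∃ v, v ≠ 0 ∧ isBump_eta.kb_lk.op v = μ • v} \ {κ}) :=
    fun a _ b _ h => Complex.ofReal_injective h
  refine (h2.image hinj).mono ?_
  rintro _ ⟨μ, ⟨⟨_, v, hv, hL⟩, hμκ⟩, rfl⟩
  obtain ⟨a, ha⟩ := hκ v μ hL hμκ
  exact Pool.Agent.Helper16.NP.isEigenvalue isBump_eta hP v hv a μ ha

end Pool.Agent.Results.MP_f4a5f6_an.InfManyEigenvalues
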